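import Mathlib

/-!
# MP_61d686_an, Q1: a minimal representation of a Cantorval with `x_n < r_{n+1}` infinitely often
-/

namespace Pool.Agent.Results.MP_61d686_an.MinimalInfinite

open Set Filter Topology MeasureTheory
open scoped Pointwise

/-- sums of subfamilies of the terms with index in `I`; for `I = univ` this is the achievement set
`E(x_n)`, for `I = Aᶜ` it is the achievement set of the sequence with the terms in `A` deleted -/
def Ach (x : ℕ → ℝ) (I : Set ℕ) : Set ℝ :=
  {s | ∃ ε : ℕ → Bool, (∀ n, ε n = true → n ∈ I) ∧ s = ∑' n, if ε n then x n else 0}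

/-- the tail `r_n = ∑_{k > n} x_k` -/
noncomputable def r (x : ℕ → ℝ) (n : ℕ) : ℝ := ∑' k, x (n + 1 + k)

/-- positive, nonincreasing, summable -/
def IsSeq (x : ℕ → ℝ) : Prop := (∀ n, 0 < x n) ∧ Antitone x ∧ Summable x

/-- Cantorvals: nonempty, compact, closure of the interior, and both endpoints of every
nondegenerate component `[a,b]` are accumulation points of one-point components -/
def IsCantorval (E : Set ℝ) : Prop :=
  E.Nonempty ∧ IsCompact E ∧ closure (interior E) = E ∧
    ∀ a b : ℝ, a < b → (∃ c ∈ E, connectedComponentIn E c = Icc a b) →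
      AccPt a (𝓟 {c | c ∈ E ∧ connectedComponentIn E c = {c}}) ∧
      AccPt b (𝓟 {c | c ∈ E ∧ connectedComponentIn E c = {c}})

/-- the representation `x` of `E(x)` is minimal: deleting infinitely many terms always changes
the topological type -/
def IsMinimal (x : ℕ → ℝ) : Prop :=
  ∀ A : Set ℕ, A.Infinite → IsEmpty (Ach x Aᶜ ≃ₜ Ach x univ)

/-- the multigeometric sequence `6, 5, 4, 6/8, 5/8, 4/8, …` -/
noncomputable def x : ℕ → ℝ
  | 0 => 6
  | 1 => 5
  | 2 => 4
  | n + 3 => x n / 8

lemma x_step (n : ℕ) : x (n + 3) = x n / 8 := rfl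

lemma three_induction {P : ℕ → Prop} (h0 : P 0) (h1 : P 1) (h2 : P 2)
    (h : ∀ n, P n → P (n + 3)) (n : ℕ) : P n := by
  induction n using Nat.strong_induction_on with
  | _ n ih =>
    match n with
    | 0 => exact h0
    | 1 => exact h1
    | 2 => exact h2
    | n + 3 => exact h n (ih n (by omega))

lemma x_pos (n : ℕ) : 0 < x n := by
  induction n using three_induction with
  | h0 => norm_num [x]
  | h1 => norm_num [x]
  | h2 => norm_num [x]
  | h n ih => rw [x_step]; linarith

lemma x_le (n : ℕ) : x n ≤ 24 * (1 / 2) ^ n := by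
  induction n using three_induction with
  | h0 => norm_num [x]
  | h1 => norm_num [x]
  | h2 => norm_num [x]
  | h n ih =>
    rw [x_step, pow_add]
    have : (0 : ℝ) < (1 / 2) ^ n := by positivity
    linarith

lemma x_anti : Antitone x := by
  apply antitone_nat_of_succ_le
  intro n
  induction n using three_induction with
  | h0 => norm_num [x]
  | h1 => norm_num [x]
  | h2 => rw [show 2 + 1 = 0 + 3 by rfl, x_step]; norm_num [x]
  | h n ih =>
    rw [show n + 3 + 1 = n + 1 + 3 by ring, x_step, x_step]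
    linarith

lemma geo : Summable fun n : ℕ => (24 : ℝ) * (1 / 2) ^ n :=
  (summable_geometric_of_lt_one (by norm_num) (by norm_num)).mul_left 24

lemma x_sum : Summable x := Summable.of_nonneg_of_le (fun n => (x_pos n).le) x_le geo

/-- tail including index `n` -/
noncomputable def R (n : ℕ) : ℝ := ∑' k, x (k + n)

lemma sum_shift (n : ℕ) : Summable fun k => x (k + n) := (summable_nat_add_iff n).mpr x_sum

lemma R_eq (n : ℕ) : R n = x n + R (n + 1) := by
  unfold R
  rw [(sum_shift n).tsum_eq_zero_add]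
  simp only [zero_add]
  congr 1
  apply tsum_congr
  intro k
  rw [show k + 1 + n = k + (n + 1) by ring]

lemma R_step (n : ℕ) : R (n + 3) = R n / 8 := by
  unfold R
  rw [← tsum_div_const]
  apply tsum_congr
  intro k
  rw [← add_assoc, x_step]

lemma R_zero : R 0 = 120 / 7 := by
  have h0 := R_eq 0
  have h1 := R_eq 1
  have h2 := R_eq 2
  have h3 := R_step 0
  have e0 : x 0 = 6 := by simp [x]
  have e1 : x 1 = 5 := by simp [x]
  have e2 : x 2 = 4 := by simp [x]
  norm_num at h0 h1 h2 h3
  linarith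

lemma R_one : R 1 = 78 / 7 := by
  have h0 := R_eq 0
  have e0 : x 0 = 6 := by simp [x]
  norm_num at h0
  linarith [R_zero]

lemma R_two : R 2 = 43 / 7 := by
  have h0 := R_eq 1
  have e0 : x 1 = 5 := by simp [x]
  norm_num at h0
  linarith [R_one]

lemma R_pos (n : ℕ) : 0 < R n := by
  induction n using three_induction with
  | h0 => rw [R_zero]; norm_num
  | h1 => rw [R_one]; norm_num
  | h2 => rw [R_two]; norm_num
  | h n ih => rw [R_step]; linarith

lemma R_le (n : ℕ) : R n ≤ 48 * (1 / 2) ^ n := by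
  induction n using three_induction with
  | h0 => rw [R_zero]; norm_num
  | h1 => rw [R_one]; norm_num
  | h2 => rw [R_two]; norm_num
  | h n ih =>
    rw [R_step, pow_add]
    have : (0 : ℝ) < (1 / 2) ^ n := by positivity
    linarith

lemma half_small {δ : ℝ} (hδ : 0 < δ) : ∃ N, ∀ n ≥ N, 48 * (1 / 2 : ℝ) ^ n < δ := by
  obtain ⟨N, hN⟩ := exists_pow_lt_of_lt_one (show 0 < δ / 48 by positivity)
    (show (1 / 2 : ℝ) < 1 by norm_num)
  refine ⟨N, fun n hn => ?_⟩
  have h1 : (1 / 2 : ℝ) ^ n ≤ (1 / 2) ^ N :=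
    pow_le_pow_of_le_one (by norm_num) (by norm_num) hn
  linarith

/-! ### sums of subfamilies -/

/-- the sum attached to a choice -/
noncomputable def val (ε : ℕ → Bool) : ℝ := ∑' n, if ε n then x n else 0

/-- partial sum of the first `n` terms -/
noncomputable def fin (n : ℕ) (ε : ℕ → Bool) : ℝ := ∑ i ∈ Finset.range n, if ε i then x i else 0

/-- tail sum -/
noncomputable def tl (n : ℕ) (ε : ℕ → Bool) : ℝ := ∑' i, if ε (i + n) then x (i + n) else 0

lemma term_nonneg (ε : ℕ → Bool) (n : ℕ) : 0 ≤ if ε n then x n else 0 := by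
  split_ifs
  · exact (x_pos n).le
  · exact le_refl _

lemma term_le (ε : ℕ → Bool) (n : ℕ) : (if ε n then x n else 0) ≤ x n := by
  split_ifs
  · exact le_refl _
  · exact (x_pos n).le

lemma term_sum (ε : ℕ → Bool) : Summable fun n => if ε n then x n else 0 :=
  Summable.of_nonneg_of_le (term_nonneg ε) (term_le ε) x_sum

lemma term_sum' (n : ℕ) (ε : ℕ → Bool) : Summable fun i => if ε (i + n) then x (i + n) else 0 :=
  (summable_nat_add_iff (f := fun i => if ε i then x i else 0) n).mpr (term_sum ε)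

lemma val_split (n : ℕ) (ε : ℕ → Bool) : val ε = fin n ε + tl n ε :=
  ((term_sum ε).sum_add_tsum_nat_add n).symm

lemma tl_nonneg (n : ℕ) (ε : ℕ → Bool) : 0 ≤ tl n ε := tsum_nonneg fun i => term_nonneg ε (i + n)

lemma tl_le (n : ℕ) (ε : ℕ → Bool) : tl n ε ≤ R n :=
  (term_sum' n ε).tsum_le_tsum (fun i => term_le ε (i + n)) (sum_shift n)

/-- the achievement set -/
def K : Set ℝ := Ach x univ

lemma val_mem (ε : ℕ → Bool) : val ε ∈ K := ⟨ε, fun _ _ => mem_univ _, rfl⟩

lemma mem_K {y : ℝ} : y ∈ K ↔ ∃ ε, y = val ε := by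
  constructor
  · rintro ⟨ε, -, h⟩; exact ⟨ε, h⟩
  · rintro ⟨ε, rfl⟩; exact val_mem ε

lemma fin_mem (n : ℕ) (ε : ℕ → Bool) : fin n ε ∈ K := by
  have h := val_split n (fun i => decide (i < n) && ε i)
  have h1 : tl n (fun i => decide (i < n) && ε i) = 0 := by
    unfold tl
    have : ∀ i, (if (decide (i + n < n) && ε (i + n)) = true then x (i + n) else 0) = 0 := by
      intro i
      have : ¬ (i + n < n) := by omega
      simp [this]
    simp only [this, tsum_zero]
  have h2 : fin n (fun i => decide (i < n) && ε i) = fin n ε := by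
    unfold fin
    apply Finset.sum_congr rfl
    intro i hi
    have : i < n := Finset.mem_range.mp hi
    simp [this]
  rw [h1, h2, add_zero] at h
  rw [← h]
  exact val_mem _

lemma tl_mem (n : ℕ) (ε : ℕ → Bool) : tl n ε ∈ K := by
  have h := val_split n (fun i => decide (n ≤ i) && ε i)
  have h1 : tl n (fun i => decide (n ≤ i) && ε i) = tl n ε := by
    unfold tl
    apply tsum_congr
    intro i
    have : n ≤ i + n := by omega
    simp [this]
  have h2 : fin n (fun i => decide (n ≤ i) && ε i) = 0 := by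
    unfold fin
    apply Finset.sum_eq_zero
    intro i hi
    have : ¬ n ≤ i := by have := Finset.mem_range.mp hi; omega
    simp [this]
  rw [h1, h2, zero_add] at h
  rw [← h]
  exact val_mem _

lemma K_bounds {y : ℝ} (hy : y ∈ K) : 0 ≤ y ∧ y ≤ R 0 := by
  obtain ⟨ε, rfl⟩ := mem_K.mp hy
  have h := val_split 0 ε
  have h0 : fin 0 ε = 0 := by simp [fin]
  rw [h0, zero_add] at h
  rw [h]
  exact ⟨tl_nonneg 0 ε, tl_le 0 ε⟩

lemma K_sym {y : ℝ} (hy : y ∈ K) : R 0 - y ∈ K := by
  obtain ⟨ε, rfl⟩ := mem_K.mp hy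
  rw [mem_K]
  refine ⟨fun n => !ε n, ?_⟩
  unfold R val
  rw [← (sum_shift 0).tsum_sub (term_sum ε)]
  apply tsum_congr
  intro n
  cases h : ε n <;> simp [h]

lemma K_compact : IsCompact K := by
  have h : K = Set.range val := by
    ext y; rw [mem_K]; constructor
    · rintro ⟨ε, h⟩; exact ⟨ε, h.symm⟩
    · rintro ⟨ε, h⟩; exact ⟨ε, h.symm⟩
  rw [h]
  apply isCompact_range
  unfold val
  apply continuous_tsum (u := x) _ x_sum
  · intro n ε
    rw [Real.norm_eq_abs, abs_of_nonneg (term_nonneg ε n)]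
    exact term_le ε n
  · intro n
    have : Continuous fun b : Bool => if b then x n else 0 := continuous_of_discreteTopology
    exact this.comp (continuous_apply n)

/-- gaps near zero -/
lemma gap_K {m : ℕ} {y : ℝ} (hy : y ∈ K) (h : y < x m) : y ≤ R (m + 1) := by
  obtain ⟨ε, rfl⟩ := mem_K.mp hy
  have hz : ∀ i ≤ m, ε i = false := by
    intro i hi
    by_contra hcon
    have h1 : x i ≤ val ε := by
      have := (term_sum ε).le_tsum i (fun j _ => term_nonneg ε j)
      have hi' : ε i = true := by simpa using hcon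
      rw [if_pos hi'] at this
      exact this
    have h2 := x_anti hi
    linarith
  rw [val_split (m + 1) ε]
  have : fin (m + 1) ε = 0 := by
    unfold fin
    apply Finset.sum_eq_zero
    intro i hi
    have := hz i (by have := Finset.mem_range.mp hi; omega)
    simp [this]
  rw [this, zero_add]
  exact tl_le _ _

lemma gap_exists (n : ℕ) : ∃ m ≥ n, R (m + 1) < x m := by
  have key : ∀ j, R (3 * j + 2 + 1) < x (3 * j + 2) := by
    intro j
    induction j with
    | zero =>
      have h1 := R_step 0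
      have h2 : x 2 = 4 := by simp [x]
      norm_num at h1 ⊢
      rw [h1, h2, R_zero]; norm_num
    | succ j ih =>
      rw [show 3 * (j + 1) + 2 + 1 = 3 * j + 2 + 1 + 3 by ring,
        show 3 * (j + 1) + 2 = 3 * j + 2 + 3 by ring, R_step, x_step]
      linarith
  exact ⟨3 * n + 2, by omega, key n⟩

lemma fin_range_finite (n : ℕ) : (Set.range (fin n)).Finite := by
  have hsub : Set.range (fin n) ⊆
      (((Finset.range n).powerset.image (fun B => ∑ i ∈ B, x i) : Finset ℝ) : Set ℝ) := by
    rintro _ ⟨ε, rfl⟩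
    rw [Finset.mem_coe, Finset.mem_image]
    refine ⟨(Finset.range n).filter (fun i => ε i = true), ?_, ?_⟩
    · rw [Finset.mem_powerset]; exact Finset.filter_subset _ _
    · unfold fin
      rw [Finset.sum_filter]
  exact (Finset.finite_toSet _).subset hsub

/-- a point of `K` isolated in `K` from the left is a limit from the right of points outside
`K` -/
lemma right_of_gap {c δ : ℝ} (hc : c ∈ K) (hδ : 0 < δ) (h : ∀ y ∈ K, c - δ < y → ¬ y < c)
    {e : ℝ} (he : 0 < e) : ∃ y, c < y ∧ y < c + e ∧ y ∉ K := by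
  obtain ⟨n, hn⟩ := half_small hδ
  have hRn : R n < δ := (R_le n).trans_lt (hn n (le_refl _))
  -- `c` is a finite sum
  have hcF : c ∈ Set.range (fin n) := by
    obtain ⟨ε, rfl⟩ := mem_K.mp hc
    refine ⟨ε, ?_⟩
    have h1 := val_split n ε
    have h2 := tl_nonneg n ε
    have h3 := tl_le n ε
    have h4 := h (fin n ε) (fin_mem n ε) (by linarith)
    linarith
  -- neighbourhood of `c` without other finite sums
  obtain ⟨e', he', hball⟩ : ∃ e' > 0, ∀ y ∈ Set.range (fin n), y ≠ c → ¬ (c < y ∧ y < c + e') := by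
    have hfin : ((Set.range (fin n)) \ {c}).Finite := (fin_range_finite n).subset sdiff_subset
    have hopen : IsOpen ((Set.range (fin n)) \ {c})ᶜ := hfin.isClosed.isOpen_compl
    obtain ⟨e', he', hb⟩ := Metric.isOpen_iff.mp hopen c (by simp)
    refine ⟨e', he', fun y hy hyc hcon => ?_⟩
    have : y ∈ Metric.ball c e' := by
      rw [Metric.mem_ball, Real.dist_eq, abs_lt]
      constructor <;> linarith [hcon.1, hcon.2]
    exact hb this ⟨hy, hyc⟩
  -- a small gap
  obtain ⟨N, hN⟩ := half_small (show 0 < min e e' by positivity)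
  obtain ⟨m, hm, hgap⟩ := gap_exists N
  have hxm : x m < min e e' := by
    have h1 := x_le m
    have h2 := hN m hm
    have h3 : (0 : ℝ) < (1 / 2) ^ m := by positivity
    linarith
  have hxe := lt_of_lt_of_le hxm (min_le_left e e')
  have hxe' := lt_of_lt_of_le hxm (min_le_right e e')
  have hR0 := R_pos (m + 1)
  refine ⟨c + (R (m + 1) + x m) / 2, by linarith, by linarith, fun hy => ?_⟩
  obtain ⟨ε, hε⟩ := mem_K.mp hy
  have h1 := val_split n ε
  have h2 := tl_nonneg n ε
  have h3 := tl_le n ε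
  have h4 := h (fin n ε) (fin_mem n ε) (by linarith)
  have h5 : fin n ε = c := by
    by_contra hne
    apply hball _ ⟨ε, rfl⟩ hne
    push Not at h4
    exact ⟨lt_of_le_of_ne h4 (Ne.symm hne), by linarith⟩
  have h6 : tl n ε = (R (m + 1) + x m) / 2 := by linarith
  have h7 := gap_K (m := m) (tl_mem n ε) (by linarith)
  linarith

lemma left_of_gap {c δ : ℝ} (hc : c ∈ K) (hδ : 0 < δ) (h : ∀ y ∈ K, c < y → ¬ y < c + δ)
    {e : ℝ} (he : 0 < e) : ∃ y, c - e < y ∧ y < c ∧ y ∉ K := by
  obtain ⟨y, h1, h2, h3⟩ := right_of_gap (K_sym hc) hδ (fun y hy h1 h2 =>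
    h (R 0 - y) (K_sym hy) (by linarith) (by linarith)) he
  refine ⟨R 0 - y, by linarith, by linarith, fun hcon => h3 ?_⟩
  have := K_sym hcon
  rwa [sub_sub_cancel] at this

lemma single {c : ℝ} (hc : c ∈ K) (hr : ∀ e > 0, ∃ y, c < y ∧ y < c + e ∧ y ∉ K)
    (hl : ∀ e > 0, ∃ y, c - e < y ∧ y < c ∧ y ∉ K) : connectedComponentIn K c = {c} := by
  have hpre := isPreconnected_connectedComponentIn (x := c) (F := K)
  have hsub := connectedComponentIn_subset K c
  have hmem := mem_connectedComponentIn hc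
  apply Set.eq_singleton_iff_unique_mem.mpr
  refine ⟨hmem, fun c' hc' => ?_⟩
  by_contra hne
  rcases lt_or_gt_of_ne hne with h | h
  · obtain ⟨y, h1, h2, h3⟩ := hl (c - c') (by linarith)
    exact h3 (hsub (hpre.Icc_subset hc' hmem ⟨by linarith, by linarith⟩))
  · obtain ⟨y, h1, h2, h3⟩ := hr (c' - c) (by linarith)
    exact h3 (hsub (hpre.Icc_subset hmem hc' ⟨by linarith, by linarith⟩))

/-- right endpoints of nondegenerate components -/
lemma acc_right {a b : ℝ} (hab : a < b) {c : ℝ} (hc : c ∈ K)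
    (hcomp : connectedComponentIn K c = Icc a b) :
    AccPt b (𝓟 {c | c ∈ K ∧ connectedComponentIn K c = {c}}) := by
  have hsub : Icc a b ⊆ K := by rw [← hcomp]; exact connectedComponentIn_subset K c
  have hcab : c ∈ Icc a b := by rw [← hcomp]; exact mem_connectedComponentIn hc
  have hbK : b ∈ K := hsub ⟨hab.le, le_refl b⟩
  -- points outside `K` to the right
  have h1 : ∀ e > 0, ∃ y, b < y ∧ y < b + e ∧ y ∉ K := by
    intro e he
    by_contra hcon
    push Not at hcon
    have h2 : Icc a (b + e / 2) ⊆ K := by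
      intro y hy
      rcases le_or_gt y b with h | h
      · exact hsub ⟨hy.1, h⟩
      · exact hcon y h (by linarith [hy.2])
    have h3 : Icc a (b + e / 2) ⊆ connectedComponentIn K c :=
      isPreconnected_Icc.subset_connectedComponentIn ⟨hcab.1, by linarith [hcab.2]⟩ h2
    rw [hcomp] at h3
    have := (h3 ⟨by linarith, le_refl _⟩ : b + e / 2 ∈ Icc a b).2
    linarith
  -- points of `K` to the right
  have h2 : ∀ e > 0, ∃ y, b < y ∧ y < b + e ∧ y ∈ K := by
    intro e he
    by_contra hcon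
    push Not at hcon
    obtain ⟨y, h3, h4, h5⟩ := left_of_gap hbK he (fun y hy h h' => hcon y h h' hy)
      (show 0 < b - a by linarith)
    exact h5 (hsub ⟨by linarith, h4.le⟩)
  rw [accPt_iff_nhds]
  intro U hU
  obtain ⟨e, he, hball⟩ := Metric.mem_nhds_iff.mp hU
  obtain ⟨y, hy1, hy2, hy3⟩ := h1 e he
  obtain ⟨z, hz1, hz2, hz3⟩ := h2 (y - b) (by linarith)
  -- last point of `K` before `y`
  have hcomp' : IsCompact (K ∩ Icc z y) := K_compact.inter_right isClosed_Icc
  obtain ⟨p, hp, hmax⟩ := hcomp'.exists_isMaxOn ⟨z, hz3, le_refl z, by linarith⟩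
    (continuous_id.continuousOn (s := K ∩ Icc z y))
  have hpy : p < y := lt_of_le_of_ne hp.2.2 (fun h => hy3 (h ▸ hp.1))
  have hgap : ∀ q ∈ K, p < q → ¬ q < p + (y - p) := by
    intro q hq h3 h4
    have : q ≤ p := hmax ⟨hq, by linarith [hp.2.1], by linarith⟩
    linarith
  refine ⟨p, ⟨hball ?_, hp.1, ?_⟩, ?_⟩
  · rw [Metric.mem_ball, Real.dist_eq, abs_lt]
    constructor <;> linarith [hp.2.1]
  · apply single hp.1
    · intro e' he'
      refine ⟨p + min (e' / 2) ((y - p) / 2), ?_, ?_, ?_⟩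
      · have : 0 < min (e' / 2) ((y - p) / 2) := by
          apply lt_min <;> linarith
        linarith
      · have := min_le_left (e' / 2) ((y - p) / 2)
        linarith
      · intro hcon
        apply hgap _ hcon
        · have : 0 < min (e' / 2) ((y - p) / 2) := by
            apply lt_min <;> linarith
          linarith
        · have := min_le_right (e' / 2) ((y - p) / 2)
          linarith
    · intro e' he'
      exact left_of_gap hp.1 (by linarith) hgap he'
  · have := hp.2.1
    intro h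
    linarith

/-- left endpoints of nondegenerate components -/
lemma acc_left {a b : ℝ} (hab : a < b) {c : ℝ} (hc : c ∈ K)
    (hcomp : connectedComponentIn K c = Icc a b) :
    AccPt a (𝓟 {c | c ∈ K ∧ connectedComponentIn K c = {c}}) := by
  have hsub : Icc a b ⊆ K := by rw [← hcomp]; exact connectedComponentIn_subset K c
  have hcab : c ∈ Icc a b := by rw [← hcomp]; exact mem_connectedComponentIn hc
  have haK : a ∈ K := hsub ⟨le_refl a, hab.le⟩
  have h1 : ∀ e > 0, ∃ y, a - e < y ∧ y < a ∧ y ∉ K := by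
    intro e he
    by_contra hcon
    push Not at hcon
    have h2 : Icc (a - e / 2) b ⊆ K := by
      intro y hy
      rcases le_or_gt a y with h | h
      · exact hsub ⟨h, hy.2⟩
      · exact hcon y (by linarith [hy.1]) h
    have h3 : Icc (a - e / 2) b ⊆ connectedComponentIn K c :=
      isPreconnected_Icc.subset_connectedComponentIn ⟨by linarith [hcab.1], hcab.2⟩ h2
    rw [hcomp] at h3
    have := (h3 ⟨le_refl _, by linarith⟩ : a - e / 2 ∈ Icc a b).1
    linarith
  have h2 : ∀ e > 0, ∃ y, a - e < y ∧ y < a ∧ y ∈ K := by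
    intro e he
    by_contra hcon
    push Not at hcon
    obtain ⟨y, h3, h4, h5⟩ := right_of_gap haK he (fun y hy h h' => hcon y h h' hy)
      (show 0 < b - a by linarith)
    exact h5 (hsub ⟨h3.le, by linarith⟩)
  rw [accPt_iff_nhds]
  intro U hU
  obtain ⟨e, he, hball⟩ := Metric.mem_nhds_iff.mp hU
  obtain ⟨y, hy1, hy2, hy3⟩ := h1 e he
  obtain ⟨z, hz1, hz2, hz3⟩ := h2 (a - y) (by linarith)
  have hcomp' : IsCompact (K ∩ Icc y z) := K_compact.inter_right isClosed_Icc
  obtain ⟨p, hp, hmin⟩ := hcomp'.exists_isMinOn ⟨z, hz3, by linarith, le_refl z⟩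
    (continuous_id.continuousOn (s := K ∩ Icc y z))
  have hpy : y < p := lt_of_le_of_ne hp.2.1 (fun h => hy3 (h ▸ hp.1))
  have hgap : ∀ q ∈ K, p - (p - y) < q → ¬ q < p := by
    intro q hq h3 h4
    have : p ≤ q := hmin ⟨hq, by linarith, by linarith [hp.2.2]⟩
    linarith
  refine ⟨p, ⟨hball ?_, hp.1, ?_⟩, ?_⟩
  · rw [Metric.mem_ball, Real.dist_eq, abs_lt]
    constructor <;> linarith [hp.2.2]
  · apply single hp.1
    · intro e' he'
      exact right_of_gap hp.1 (by linarith) hgap he'
    · intro e' he'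
      have hmin' : 0 < min (e' / 2) ((p - y) / 2) := by
        apply lt_min <;> linarith
      refine ⟨p - min (e' / 2) ((p - y) / 2), ?_, by linarith, ?_⟩
      · have := min_le_left (e' / 2) ((p - y) / 2)
        linarith
      · intro hcon
        have := min_le_right (e' / 2) ((p - y) / 2)
        exact hgap _ hcon (by linarith) (by linarith)
  · have := hp.2.2
    intro h
    linarith

/-! ### interior -/

lemma x_mul (i j : ℕ) : x (i + 3 * j) = x i / 8 ^ j := by
  induction j with
  | zero => simp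
  | succ j ih =>
    rw [show i + 3 * (j + 1) = i + 3 * j + 3 by ring, x_step, ih, pow_succ]
    field_simp

lemma residue (e : ℤ) : ∃ (a b c : Bool) (q : ℤ),
    (e : ℝ) = (if a then 6 else 0) + (if b then 5 else 0) + (if c then 4 else 0) + 8 * q := by
  have h : ∃ (a b c : Bool) (q : ℤ),
      e = (if a then 6 else 0) + (if b then 5 else 0) + (if c then 4 else 0) + 8 * q := by
    have hm : e % 8 = 0 ∨ e % 8 = 1 ∨ e % 8 = 2 ∨ e % 8 = 3 ∨ e % 8 = 4 ∨ e % 8 = 5 ∨ e % 8 = 6 ∨
        e % 8 = 7 := by omega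
    rcases hm with h | h | h | h | h | h | h | h
    · exact ⟨false, false, false, e / 8, by simp; omega⟩
    · exact ⟨false, true, true, e / 8 - 1, by simp; omega⟩
    · exact ⟨true, false, true, e / 8 - 1, by simp; omega⟩
    · exact ⟨true, true, false, e / 8 - 1, by simp; omega⟩
    · exact ⟨false, false, true, e / 8, by simp; omega⟩
    · exact ⟨false, true, false, e / 8, by simp; omega⟩
    · exact ⟨true, false, false, e / 8, by simp; omega⟩
    · exact ⟨true, true, true, e / 8 - 1, by simp; omega⟩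
  obtain ⟨a, b, c, q, h⟩ := h
  refine ⟨a, b, c, q, ?_⟩
  rw [h]
  push_cast
  rfl

lemma dense_aux (J : ℕ) : ∀ N : ℤ, ∃ (ε : ℕ → Bool) (q : ℤ),
    (N : ℝ) / 8 ^ J = fin (3 * (J + 1)) ε + 8 * q := by
  induction J with
  | zero =>
    intro N
    obtain ⟨a, b, c, q, h⟩ := residue N
    refine ⟨fun n => if n = 0 then a else if n = 1 then b else c, q, ?_⟩
    rw [pow_zero, div_one, h]
    simp [fin, Finset.sum_range_succ, x]
  | succ J ih =>
    intro N
    obtain ⟨a, b, c, N', h⟩ := residue N
    obtain ⟨ε, q, hε⟩ := ih N'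
    refine ⟨fun n => if n < 3 * (J + 1) then ε n else if n = 3 * (J + 1) then a else
      if n = 3 * (J + 1) + 1 then b else c, q, ?_⟩
    have e0 : x (3 * (J + 1)) = 6 / 8 ^ (J + 1) := by
      have := x_mul 0 (J + 1); rw [zero_add] at this; rw [this]; simp [x]
    have e1 : x (3 * (J + 1) + 1) = 5 / 8 ^ (J + 1) := by
      have := x_mul 1 (J + 1); rw [add_comm] at this; rw [this]; simp [x]
    have e2 : x (3 * (J + 1) + 2) = 4 / 8 ^ (J + 1) := by
      have := x_mul 2 (J + 1); rw [add_comm] at this; rw [this]; simp [x]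
    have hfin : ∀ ε' : ℕ → Bool, fin (3 * (J + 1 + 1)) ε' = fin (3 * (J + 1)) ε' +
        (if ε' (3 * (J + 1)) then x (3 * (J + 1)) else 0) +
        (if ε' (3 * (J + 1) + 1) then x (3 * (J + 1) + 1) else 0) +
        (if ε' (3 * (J + 1) + 2) then x (3 * (J + 1) + 2) else 0) := by
      intro ε'
      unfold fin
      rw [show 3 * (J + 1 + 1) = 3 * (J + 1) + 1 + 1 + 1 by ring, Finset.sum_range_succ,
        Finset.sum_range_succ, Finset.sum_range_succ]
    rw [hfin]
    have h1 : fin (3 * (J + 1)) (fun n => if n < 3 * (J + 1) then ε n else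
        if n = 3 * (J + 1) then a else if n = 3 * (J + 1) + 1 then b else c)
        = fin (3 * (J + 1)) ε := by
      unfold fin
      apply Finset.sum_congr rfl
      intro i hi
      have hi' := Finset.mem_range.mp hi
      simp [hi']
    rw [h1, e0, e1, e2]
    have c1 : ¬ (3 * (J + 1) < 3 * (J + 1)) := by omega
    have c2 : ¬ (3 * (J + 1) + 1 < 3 * (J + 1)) := by omega
    have c3 : ¬ (3 * (J + 1) + 2 < 3 * (J + 1)) := by omega
    have c4 : ¬ (3 * (J + 1) + 1 = 3 * (J + 1)) := by omega
    have c5 : ¬ (3 * (J + 1) + 2 = 3 * (J + 1)) := by omega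
    have c6 : ¬ (3 * (J + 1) + 2 = 3 * (J + 1) + 1) := by omega
    simp only [if_neg c1, if_neg c2, if_neg c3, if_neg c4, if_neg c5, if_neg c6, if_true]
    have hpow : (8 : ℝ) ^ (J + 1) = 8 * 8 ^ J := by rw [pow_succ]; ring
    have h8 : (8 : ℝ) ^ J ≠ 0 := by positivity
    have key : (N : ℝ) / 8 ^ (J + 1) = (N' : ℝ) / 8 ^ J +
        ((if a then 6 else 0) + (if b then 5 else 0) + (if c then 4 else 0)) / 8 ^ (J + 1) := by
      rw [h, hpow]
      field_simp
      ring
    rw [key, hε]
    have k1 : ∀ (t : Bool) (z : ℝ), (if t = true then z / 8 ^ (J + 1) else 0)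
        = (if t = true then z else 0) / 8 ^ (J + 1) := by
      intro t z; split_ifs <;> simp
    rw [k1, k1, k1]
    ring

lemma cover (y : ℝ) : ∃ q : ℤ, y - 8 * q ∈ K := by
  have hZ : IsClosed (Set.range fun q : ℤ => (8 : ℝ) * q) :=
    ((Homeomorph.mulLeft₀ (8 : ℝ) (by norm_num)).isClosedMap.comp
      Int.isClosedEmbedding_coe_real.isClosedMap).isClosed_range
  have hcl : IsClosed (K + Set.range fun q : ℤ => (8 : ℝ) * q) :=
    hZ.add_left_of_isCompact K_compact
  have hmem : y ∈ closure (K + Set.range fun q : ℤ => (8 : ℝ) * q) := by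
    rw [Metric.mem_closure_iff]
    intro e he
    obtain ⟨J, hJ⟩ := exists_pow_lt_of_lt_one he (show (1 / 8 : ℝ) < 1 by norm_num)
    obtain ⟨ε, q, h⟩ := dense_aux J ⌊y * 8 ^ J⌋
    refine ⟨(⌊y * 8 ^ J⌋ : ℝ) / 8 ^ J, ?_, ?_⟩
    · rw [h]
      exact Set.add_mem_add (fin_mem _ _) ⟨q, rfl⟩
    · have h8 : (0 : ℝ) < 8 ^ J := by positivity
      have h1 := Int.floor_le (y * 8 ^ J)
      have h2 := Int.lt_floor_add_one (y * 8 ^ J)
      have h3 : (⌊y * 8 ^ J⌋ : ℝ) / 8 ^ J ≤ y := by
        rw [div_le_iff₀ h8]; exact h1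
      have h4 : y - (1 / 8) ^ J < (⌊y * 8 ^ J⌋ : ℝ) / 8 ^ J := by
        rw [lt_div_iff₀ h8, sub_mul, ← mul_pow]
        norm_num
      rw [Real.dist_eq, abs_lt]
      constructor <;> linarith
  rw [hcl.closure_eq] at hmem
  obtain ⟨k, hk, _, ⟨q, rfl⟩, h⟩ := Set.mem_add.mp hmem
  refine ⟨q, ?_⟩
  simp only at h
  rw [← h, add_sub_cancel_right]
  exact hk

lemma interior_nonempty : ∃ p ρ : ℝ, 0 < ρ ∧ ∀ z, |z - p| < ρ → z ∈ K := by
  obtain ⟨q, hq⟩ := nonempty_interior_of_iUnion_of_closed
    (f := fun q : ℤ => (fun y : ℝ => y + 8 * q) '' K) (fun q => by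
      exact (Homeomorph.addRight (8 * (q : ℝ))).isClosedMap _ K_compact.isClosed) (by
      apply Set.eq_univ_of_forall
      intro y
      rw [Set.mem_iUnion]
      obtain ⟨q, hq⟩ := cover y
      exact ⟨q, _, hq, by ring⟩)
  obtain ⟨p, hp⟩ := hq
  obtain ⟨ρ, hρ, hball⟩ := Metric.isOpen_iff.mp isOpen_interior p hp
  refine ⟨p - 8 * q, ρ, hρ, fun z hz => ?_⟩
  have h1 : z + 8 * q ∈ Metric.ball p ρ := by
    rw [Metric.mem_ball, Real.dist_eq]
    rwa [show z + 8 * (q : ℝ) - p = z - (p - 8 * q) by ring]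
  obtain ⟨k, hk, hk'⟩ := interior_subset (hball h1)
  simp only at hk'
  have : k = z := by linarith
  rwa [← this]

lemma affine_mem (J : ℕ) (ε : ℕ → Bool) {t : ℝ} (ht : t ∈ K) : fin (3 * J) ε + t / 8 ^ J ∈ K := by
  obtain ⟨ε₂, rfl⟩ := mem_K.mp ht
  rw [mem_K]
  refine ⟨fun n => if n < 3 * J then ε n else ε₂ (n - 3 * J), ?_⟩
  rw [val_split (3 * J) (fun n => if n < 3 * J then ε n else ε₂ (n - 3 * J))]
  congr 1
  · unfold fin
    apply Finset.sum_congr rfl
    intro i hi
    have hi' := Finset.mem_range.mp hi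
    simp [hi']
  · unfold tl val
    rw [← tsum_div_const]
    apply tsum_congr
    intro i
    have c1 : ¬ (i + 3 * J < 3 * J) := by omega
    simp only [if_neg c1, Nat.add_sub_cancel, x_mul]
    split_ifs <;> simp

lemma R_three (J : ℕ) : R (3 * J) = R 0 / 8 ^ J := by
  induction J with
  | zero => simp
  | succ J ih =>
    rw [show 3 * (J + 1) = 3 * J + 3 by ring, R_step, ih, pow_succ]
    field_simp

lemma closure_interior_K : closure (interior K) = K := by
  apply subset_antisymm
  · exact closure_minimal interior_subset K_compact.isClosed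
  · intro y hy
    rw [Metric.mem_closure_iff]
    intro e he
    obtain ⟨p, ρ, hρ, hball⟩ := interior_nonempty
    have hpK : p ∈ K := hball p (by simpa using hρ)
    obtain ⟨J, hJ⟩ := half_small he
    obtain ⟨ε, rfl⟩ := mem_K.mp hy
    have h8 : (0 : ℝ) < 8 ^ J := by positivity
    refine ⟨fin (3 * J) ε + p / 8 ^ J, ?_, ?_⟩
    · rw [mem_interior_iff_mem_nhds, Metric.mem_nhds_iff]
      refine ⟨ρ / 8 ^ J, by positivity, fun z hz => ?_⟩
      rw [Metric.mem_ball, Real.dist_eq] at hz
      have h1 : (z - fin (3 * J) ε) * 8 ^ J ∈ K := by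
        apply hball
        have h2 : (z - fin (3 * J) ε) * 8 ^ J - p = (z - (fin (3 * J) ε + p / 8 ^ J)) * 8 ^ J := by
          field_simp
          ring
        rw [h2, abs_mul, abs_of_pos h8]
        rwa [lt_div_iff₀ h8] at hz
      have h3 := affine_mem J ε h1
      have h4 : fin (3 * J) ε + (z - fin (3 * J) ε) * 8 ^ J / 8 ^ J = z := by
        field_simp
        ring
      rwa [h4] at h3
    · rw [val_split (3 * J) ε, Real.dist_eq]
      have h1 := tl_nonneg (3 * J) ε
      have h2 := tl_le (3 * J) ε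
      have h3 := K_bounds hpK
      have h4 : 0 ≤ p / 8 ^ J := div_nonneg h3.1 h8.le
      have h5 : p / 8 ^ J ≤ R (3 * J) := by
        rw [R_three]
        exact div_le_div_of_nonneg_right h3.2 h8.le
      have h6 : R (3 * J) < e := (R_le _).trans_lt (hJ _ (by omega))
      rw [abs_lt]
      constructor <;> linarith

theorem cantorval_K : IsCantorval K := by
  refine ⟨⟨_, val_mem fun _ => false⟩, K_compact, closure_interior_K, ?_⟩
  rintro a b hab ⟨c, hc, hcomp⟩
  exact ⟨acc_left hab hc hcomp, acc_right hab hc hcomp⟩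

/-! ### minimality -/

open Classical in
lemma volume_le (A : Set ℕ) (n : ℕ) : volume (Ach x Aᶜ) ≤
    ENNReal.ofReal (48 * (1 / 2) ^ ((Finset.range n).filter (· ∈ A)).card) := by
  classical
  obtain ⟨G, hG⟩ : ∃ G, G = (Finset.range n).filter (· ∉ A) := ⟨_, rfl⟩
  have hsub : Ach x Aᶜ ⊆ ⋃ B ∈ G.powerset, Icc (∑ i ∈ B, x i) (∑ i ∈ B, x i + R n) := by
    rintro y ⟨ε, hε, rfl⟩
    simp only [Set.mem_iUnion]
    refine ⟨(Finset.range n).filter (fun i => ε i = true), ?_, ?_⟩
    · rw [Finset.mem_powerset, hG]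
      intro i hi
      rw [Finset.mem_filter] at hi ⊢
      exact ⟨hi.1, hε i hi.2⟩
    · have h1 := val_split n ε
      have h2 := tl_nonneg n ε
      have h3 := tl_le n ε
      have h4 : ∑ i ∈ (Finset.range n).filter (fun i => ε i = true), x i = fin n ε := by
        unfold fin
        rw [Finset.sum_filter]
      rw [h4]
      have h5 : (∑' n, if ε n then x n else 0) = val ε := rfl
      rw [h5, h1]
      exact ⟨by linarith, by linarith⟩
  have hcard : G.card + ((Finset.range n).filter (· ∈ A)).card = n := by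
    rw [hG, add_comm]
    have := Finset.card_filter_add_card_filter_not (s := Finset.range n) (· ∈ A)
    simpa using this
  calc volume (Ach x Aᶜ) ≤ volume (⋃ B ∈ G.powerset, Icc (∑ i ∈ B, x i) (∑ i ∈ B, x i + R n)) :=
        measure_mono hsub
    _ ≤ ∑ B ∈ G.powerset, volume (Icc (∑ i ∈ B, x i) (∑ i ∈ B, x i + R n)) :=
        measure_biUnion_finset_le _ _
    _ = ∑ B ∈ G.powerset, ENNReal.ofReal (R n) := by
        apply Finset.sum_congr rfl
        intro B _
        rw [Real.volume_Icc]
        congr 1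
        ring
    _ = ENNReal.ofReal (2 ^ G.card * R n) := by
        rw [Finset.sum_const, Finset.card_powerset, nsmul_eq_mul,
          ENNReal.ofReal_mul (by positivity)]
        congr 1
        push_cast
        rw [ENNReal.ofReal_pow (by norm_num)]
        simp
    _ ≤ ENNReal.ofReal (48 * (1 / 2) ^ ((Finset.range n).filter (· ∈ A)).card) := by
        apply ENNReal.ofReal_le_ofReal
        have h1 := R_le n
        have h2 : (2 : ℝ) ^ G.card * R n ≤ 2 ^ G.card * (48 * (1 / 2) ^ n) :=
          mul_le_mul_of_nonneg_left h1 (by positivity)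
        have h3 : (1 / 2 : ℝ) ^ n = (1 / 2) ^ G.card *
            (1 / 2) ^ ((Finset.range n).filter (· ∈ A)).card := by
          rw [← pow_add, hcard]
        have h4 : (2 : ℝ) ^ G.card * (1 / 2) ^ G.card = 1 := by
          rw [← mul_pow]; norm_num
        calc (2 : ℝ) ^ G.card * R n ≤ 2 ^ G.card * (48 * (1 / 2) ^ n) := h2
          _ = (2 ^ G.card * (1 / 2) ^ G.card) *
              (48 * (1 / 2) ^ ((Finset.range n).filter (· ∈ A)).card) := by rw [h3]; ring
          _ = 48 * (1 / 2) ^ ((Finset.range n).filter (· ∈ A)).card := by rw [h4, one_mul]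

lemma volume_zero {A : Set ℕ} (hA : A.Infinite) : volume (Ach x Aᶜ) = 0 := by
  classical
  have hlim : Tendsto (fun N : ℕ => ENNReal.ofReal (48 * (1 / 2) ^ N)) atTop (𝓝 0) := by
    have h1 : Tendsto (fun N : ℕ => (48 : ℝ) * (1 / 2) ^ N) atTop (𝓝 (48 * 0)) :=
      (tendsto_pow_atTop_nhds_zero_of_lt_one (by norm_num) (by norm_num)).const_mul 48
    rw [mul_zero] at h1
    have := ENNReal.tendsto_ofReal h1
    rwa [ENNReal.ofReal_zero] at this
  apply le_antisymm _ zero_le
  apply ge_of_tendsto' hlim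
  intro N
  obtain ⟨B, hBA, hB⟩ := hA.exists_subset_card_eq N
  obtain ⟨n, hn⟩ : ∃ n, ∀ i ∈ B, i < n := ⟨B.sup id + 1, fun i hi =>
    Nat.lt_succ_of_le (Finset.le_sup (f := id) hi)⟩
  refine (volume_le A n).trans (ENNReal.ofReal_le_ofReal ?_)
  have hcard : N ≤ ((Finset.range n).filter (· ∈ A)).card := by
    rw [← hB]
    apply Finset.card_le_card
    intro i hi
    rw [Finset.mem_filter, Finset.mem_range]
    exact ⟨hn i hi, hBA hi⟩
  apply mul_le_mul_of_nonneg_left _ (by norm_num)
  exact pow_le_pow_of_le_one (by norm_num) (by norm_num) hcard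

theorem minimal_x : IsMinimal x := by
  intro A hA
  refine ⟨fun φ => ?_⟩
  obtain ⟨p, ρ, hρ, hball⟩ := interior_nonempty
  have hIK : Icc p (p + ρ / 2) ⊆ K := by
    intro z hz
    apply hball
    rw [abs_lt]
    constructor <;> linarith [hz.1, hz.2]
  obtain ⟨S, hS⟩ : ∃ S : Set (Ach x univ), S = Subtype.val ⁻¹' (Icc p (p + ρ / 2)) := ⟨_, rfl⟩
  have hSpre : IsPreconnected S := by
    rw [← Topology.IsInducing.subtypeVal.isPreconnected_image, hS, Subtype.image_preimage_coe]
    have h0 : Ach x univ ∩ Icc p (p + ρ / 2) = Icc p (p + ρ / 2) := Set.inter_eq_right.mpr hIK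
    rw [h0]
    exact isPreconnected_Icc
  have hU : IsPreconnected ((fun y => (φ.symm y : ℝ)) '' S) :=
    hSpre.image _ (continuous_subtype_val.comp φ.symm.continuous).continuousOn
  -- two distinct points
  let a : Ach x univ := ⟨p, hIK ⟨le_refl _, by linarith⟩⟩
  let b : Ach x univ := ⟨p + ρ / 2, hIK ⟨by linarith, le_refl _⟩⟩
  have ha : a ∈ S := by
    rw [hS]
    exact (⟨le_refl _, by linarith⟩ : p ∈ Icc p (p + ρ / 2))
  have hb : b ∈ S := by
    rw [hS]
    exact (⟨by linarith, le_refl _⟩ : p + ρ / 2 ∈ Icc p (p + ρ / 2))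
  have hne : (φ.symm a : ℝ) ≠ (φ.symm b : ℝ) := by
    intro h
    have h1 : φ.symm a = φ.symm b := Subtype.ext h
    have h2 : a = b := φ.symm.injective h1
    have h3 : p = p + ρ / 2 := congrArg Subtype.val h2
    linarith
  have key : ∀ u v : ℝ, u < v → Icc u v ⊆ Ach x Aᶜ → False := by
    intro u v huv hsub
    have h1 := measure_mono (μ := volume) hsub
    rw [volume_zero hA, Real.volume_Icc] at h1
    have h2 : 0 < ENNReal.ofReal (v - u) := ENNReal.ofReal_pos.mpr (by linarith)
    exact absurd h1 (not_le.mpr h2)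
  have hsubU : ((fun y => (φ.symm y : ℝ)) '' S) ⊆ Ach x Aᶜ := by
    rintro _ ⟨y, -, rfl⟩
    exact (φ.symm y).2
  rcases lt_or_gt_of_ne hne with h | h
  · exact key _ _ h ((hU.Icc_subset ⟨a, ha, rfl⟩ ⟨b, hb, rfl⟩).trans hsubU)
  · exact key _ _ h ((hU.Icc_subset ⟨b, hb, rfl⟩ ⟨a, ha, rfl⟩).trans hsubU)

lemma tail_eq (n : ℕ) : r x n = R (n + 1) := by
  unfold r R
  apply tsum_congr
  intro k
  rw [add_comm (n + 1) k]

lemma infinite_lt : {n | x n < r x (n + 1)}.Infinite := by
  apply Set.infinite_of_injective_forall_mem (f := fun j : ℕ => 0 + 3 * j)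
  · intro a b h; simp only at h; omega
  · intro j
    show x (0 + 3 * j) < r x (0 + 3 * j + 1)
    rw [tail_eq, x_mul, show 0 + 3 * j + 1 + 1 = 2 + 3 * j by ring]
    have h1 : R (2 + 3 * j) = R 2 / 8 ^ j := by
      induction j with
      | zero => simp
      | succ j ih =>
        rw [show 2 + 3 * (j + 1) = 2 + 3 * j + 3 by ring, R_step, ih, pow_succ]
        field_simp
    rw [h1, R_two]
    apply div_lt_div_of_pos_right _ (by positivity)
    simp [x]; norm_num

/-- Q1 is false: there is a positive nonincreasing summable sequence `x` whose achievement set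
`E(x)` is a Cantorval, such that `x` is a minimal representation of `E(x)` although
`x_n < r_{n+1}` for infinitely many `n`. -/
theorem result : ∃ x : ℕ → ℝ, IsSeq x ∧ IsCantorval (Ach x univ) ∧ IsMinimal x ∧
    {n | x n < r x (n + 1)}.Infinite :=
  ⟨x, ⟨x_pos, x_anti, x_sum⟩, cantorval_K, minimal_x, infinite_lt⟩

end Pool.Agent.Results.MP_61d686_an.MinimalInfinite
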